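import Pool.Agent.Helper62.ZH3.Final

/-!
# MP_f907b0_lc: an explicit Turing machine with 131 states that halts iff ZF is inconsistent
-/

set_option autoImplicit false

namespace Pool.Agent.Results.MP_f907b0_lc.HaltsIffInconsistent

open Pool.Agent.Helper62.ZH3 Pool.Agent.Helper62.ZH

/-- The explicit 131-state machine `machine` (table: `tab`), started on the blank tape, halts if and only if falsity is provable from the axioms of ZF. -/
theorem result : machine.Halts ↔ Prov ZFAx [] botF :=
  halts_iff_prov

end Pool.Agent.Results.MP_f907b0_lc.HaltsIffInconsistent
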